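import Mathlib

namespace Pool.Agent.H.MP_6fd33d_al

open Set Cardinal

def IsMAlg (m : Cardinal.{0}) (B : Type) [BooleanAlgebra B] : Prop :=
  ∀ s : Set B, #s ≤ m → (∃ x, IsLUB s x) ∧ ∃ x, IsGLB s x

def IsMHom (m : Cardinal.{0}) {A B : Type} [BooleanAlgebra A] [BooleanAlgebra B]
    (h : BoundedLatticeHom A B) : Prop :=
  ∀ s : Set A, #s ≤ m → ∀ x, (IsLUB s x → IsLUB (h '' s) (h x)) ∧ (IsGLB s x → IsGLB (h '' s) (h x))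

def IsProd (m n : Cardinal.{0}) {T : Type} {A : T → Type} [∀ t, BooleanAlgebra (A t)]
    {B : Type} [BooleanAlgebra B] (i : ∀ t, BoundedLatticeHom (A t) B) : Prop :=
  IsMAlg m B ∧ (∀ t, Function.Injective (i t) ∧ IsMHom m (i t)) ∧
  (∀ T' : Set T, #T' ≤ n → ∀ a : ∀ t, A t, (∀ t ∈ T', a t ≠ ⊥) →
    ∃ x, x ≠ ⊥ ∧ IsGLB ((fun t => i t (a t)) '' T') x) ∧
  ∀ S : Set B, (∀ t a, i t a ∈ S) → (∀ x ∈ S, xᶜ ∈ S) →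
    (∀ s ⊆ S, #s ≤ m → ∀ x, (IsLUB s x ∨ IsGLB s x) → x ∈ S) → S = Set.univ

def IsMin (n : Cardinal.{0}) {T : Type} {A : T → Type} [∀ t, BooleanAlgebra (A t)]
    {B : Type} [BooleanAlgebra B] (i : ∀ t, BoundedLatticeHom (A t) B) : Prop :=
  ∀ b : B, b ≠ ⊥ → ∃ T' : Set T, #T' ≤ n ∧ ∃ (a : ∀ t, A t) (x : B),
    x ≠ ⊥ ∧ IsGLB ((fun t => i t (a t)) '' T') x ∧ x ≤ b

end Pool.Agent.H.MP_6fd33d_al
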