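import Pool.Agent.H.MP_6fd33d_al.Defs

namespace Pool.Agent.H.MP_6fd33d_al

open Set Cardinal TopologicalSpace

lemma glb_compl {A : Type} [BooleanAlgebra A] {s : Set A} {x : A} (h : IsLUB s x) :
    IsGLB (compl '' s) xᶜ :=
  ⟨by rintro _ ⟨y, hy, rfl⟩; exact compl_le_compl (h.1 hy),
    fun z hz => le_compl_comm.1 (h.2 fun y hy => le_compl_comm.1 (hz ⟨y, hy, rfl⟩))⟩

lemma lub_of_glb {A B : Type} [BooleanAlgebra A] [BooleanAlgebra B] (h : BoundedLatticeHom A B)
    (hg : ∀ s x, IsGLB s x → IsGLB (h '' s) (h x)) {s : Set A} {x : A} (hx : IsLUB s x) :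
    IsLUB (h '' s) (h x) := by
  refine ⟨by rintro _ ⟨y, hy, rfl⟩; exact OrderHomClass.mono h (hx.1 hy), fun w hw => ?_⟩
  have : wᶜ ≤ h xᶜ := (hg _ _ (glb_compl hx)).2 (by
    rintro _ ⟨_, ⟨y, hy, rfl⟩, rfl⟩
    rw [map_compl']
    exact compl_le_compl (hw ⟨y, hy, rfl⟩))
  rwa [map_compl', compl_le_compl_iff_le] at this

def Gen (m : Cardinal.{0}) {C : Type} [BooleanAlgebra C] (G : Set C) (x : C) : Prop :=
  ∀ S : Set C, G ⊆ S → (∀ x ∈ S, xᶜ ∈ S) →
    (∀ s ⊆ S, #s ≤ m → ∀ x, (IsLUB s x ∨ IsGLB s x) → x ∈ S) → x ∈ S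

lemma Gen.big {m : Cardinal.{0}} {C : Type} [BooleanAlgebra C] {G s : Set C} {x : C}
    (hs : ∀ y ∈ s, Gen m G y) (hm : #s ≤ m) (hx : IsLUB s x ∨ IsGLB s x) : Gen m G x :=
  fun S h1 h2 h3 => h3 s (fun y hy => hs y hy S h1 h2 h3) hm x hx

def sub (m : Cardinal.{0}) (hm : ℵ₀ ≤ m) {C : Type} [BooleanAlgebra C] (G : Set C) :
    BooleanSubalgebra C where
  carrier := {x | Gen m G x}
  supClosed' := fun a ha b hb => Gen.big (s := {a, b}) (by rintro _ (rfl | rfl) <;> assumption)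
    ((Set.toFinite _).lt_aleph0.le.trans hm) (Or.inl isLUB_pair)
  infClosed' := fun a ha b hb => Gen.big (s := {a, b}) (by rintro _ (rfl | rfl) <;> assumption)
    ((Set.toFinite _).lt_aleph0.le.trans hm) (Or.inr isGLB_pair)
  compl_mem' := fun ha S h1 h2 h3 => h2 _ (ha S h1 h2 h3)
  bot_mem' := Gen.big (s := ∅) (by simp) (by simp) (Or.inl isLUB_empty)

def res (m : Cardinal.{0}) (hm : ℵ₀ ≤ m) {A C : Type} [BooleanAlgebra A] [BooleanAlgebra C]
    (j : Bool → BoundedLatticeHom A C) (t : Bool) :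
    BoundedLatticeHom A (sub m hm (⋃ t, range (j t))) where
  toFun a := ⟨j t a, fun _ h1 _ _ => h1 (mem_iUnion.2 ⟨t, a, rfl⟩)⟩
  map_sup' a b := Subtype.ext (map_sup (j t) a b)
  map_inf' a b := Subtype.ext (map_inf (j t) a b)
  map_top' := Subtype.ext (map_top (j t))
  map_bot' := Subtype.ext (map_bot (j t))

lemma sub_lub {C : Type} [BooleanAlgebra C] {L : BooleanSubalgebra C} {s : Set L} {x : L}
    (h : IsLUB (Subtype.val '' s) x.1) : IsLUB s x :=
  ⟨fun y hy => h.1 ⟨y, hy, rfl⟩, fun z hz => h.2 (by rintro _ ⟨y, hy, rfl⟩; exact hz hy)⟩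

lemma sub_glb {C : Type} [BooleanAlgebra C] {L : BooleanSubalgebra C} {s : Set L} {x : L}
    (h : IsGLB (Subtype.val '' s) x.1) : IsGLB s x :=
  ⟨fun y hy => h.1 ⟨y, hy, rfl⟩, fun z hz => h.2 (by rintro _ ⟨y, hy, rfl⟩; exact hz hy)⟩

lemma sub_ex {m : Cardinal.{0}} (hm : ℵ₀ ≤ m) {C : Type} [BooleanAlgebra C] {G : Set C}
    (hC : ∀ s : Set C, ∃ x, IsLUB s x) (s : Set (sub m hm G)) (hs : #s ≤ m) :
    (∃ x : sub m hm G, IsLUB (Subtype.val '' s) x.1) ∧
      ∃ x : sub m hm G, IsGLB (Subtype.val '' s) x.1 := by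
  have h1 : ∀ y ∈ Subtype.val '' s, Gen m G y := by rintro _ ⟨y, -, rfl⟩; exact y.2
  have h2 : #(Subtype.val '' s) ≤ m := mk_image_le.trans hs
  obtain ⟨x, hx⟩ := hC (Subtype.val '' s)
  obtain ⟨y, hy⟩ := hC (lowerBounds (Subtype.val '' s))
  exact ⟨⟨⟨x, Gen.big h1 h2 (Or.inl hx)⟩, hx⟩,
    ⟨⟨y, Gen.big h1 h2 (Or.inr (isLUB_lowerBounds.1 hy))⟩, isLUB_lowerBounds.1 hy⟩⟩

lemma pair_glb {A B : Type} [BooleanAlgebra A] [BooleanAlgebra B]
    (j : Bool → BoundedLatticeHom A B) (T' : Set Bool) (a a' : Bool → A)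
    (h1 : ∀ t ∈ T', a' t = a t) (h2 : ∀ t ∉ T', a' t = ⊤) :
    IsGLB ((fun t => j t (a t)) '' T') (j true (a' true) ⊓ j false (a' false)) := by
  have h3 : ∀ z ∈ lowerBounds ((fun t => j t (a t)) '' T'), ∀ t, z ≤ j t (a' t) := fun z hz t => by
    rcases em (t ∈ T') with h | h
    · rw [h1 t h]; exact hz ⟨t, h, rfl⟩
    · rw [h2 t h, map_top]; exact le_top
  refine ⟨?_, fun z hz => le_inf (h3 z hz true) (h3 z hz false)⟩
  rintro _ ⟨t, ht, rfl⟩
  cases t
  · rw [h1 _ ht]; exact inf_le_right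
  · rw [h1 _ ht]; exact inf_le_left

lemma res_prod {m n : Cardinal.{0}} (hm : ℵ₀ ≤ m) {A C : Type} [BooleanAlgebra A] [Nontrivial A]
    [BooleanAlgebra C] (hC : ∀ s : Set C, ∃ x, IsLUB s x) (j : Bool → BoundedLatticeHom A C)
    (hg : ∀ t s x, IsGLB s x → IsGLB (j t '' s) (j t x))
    (hi : ∀ a b, a ≠ ⊥ → b ≠ ⊥ → j true a ⊓ j false b ≠ ⊥) :
    IsProd m n (A := fun _ => A) (res m hm j) := by
  classical
  refine ⟨fun s hs => ?_, fun t => ⟨?_, fun s _ x => ⟨fun h => sub_lub ?_, fun h => sub_glb ?_⟩⟩,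
    fun T' _ a ha => ?_, fun S h1 h2 h3 => ?_⟩
  · obtain ⟨⟨x, hx⟩, y, hy⟩ := sub_ex hm hC s hs
    exact ⟨⟨x, sub_lub hx⟩, y, sub_glb hy⟩
  · have k : ∀ a, j t a = ⊥ → a = ⊥ := fun a h => by
      by_contra hne
      cases t
      · exact hi ⊤ a top_ne_bot hne (by rw [h, inf_bot_eq])
      · exact hi a ⊤ hne top_ne_bot (by rw [h, bot_inf_eq])
    intro a b hab
    have e : j t a = j t b := congrArg Subtype.val hab
    apply le_antisymm
    · exact sdiff_eq_bot_iff.1 (k _ (by rw [map_sdiff', e, _root_.sdiff_self]))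
    · exact sdiff_eq_bot_iff.1 (k _ (by rw [map_sdiff', e, _root_.sdiff_self]))
  · rw [← image_comp]; exact lub_of_glb (j t) (hg t) h
  · rw [← image_comp]; exact hg t s x h
  · refine ⟨_, fun h => hi _ _ ?_ ?_ (congrArg Subtype.val h), pair_glb (res m hm j) T' a
      (fun t => if t ∈ T' then a t else ⊤) (fun t ht => if_pos ht) (fun t ht => if_neg ht)⟩
    · split_ifs with h
      exacts [ha _ h, top_ne_bot]
    · split_ifs with h
      exacts [ha _ h, top_ne_bot]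
  · refine eq_univ_of_forall fun x => ?_
    have := x.2 (Subtype.val '' S) (by
        intro y hy
        obtain ⟨t, a, rfl⟩ := mem_iUnion.1 hy
        exact ⟨_, h1 t a, rfl⟩)
      (by rintro _ ⟨y, hy, rfl⟩; exact ⟨_, h2 y hy, rfl⟩) (fun s hs hsm y hy => by
        obtain ⟨s', hs', rfl⟩ := subset_image_iff.1 hs
        have c : #s' ≤ m := by rwa [mk_image_eq Subtype.val_injective] at hsm
        have g : Gen m (⋃ t, range (j t)) y :=
          Gen.big (by rintro _ ⟨z, -, rfl⟩; exact z.2) hsm hy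
        exact ⟨⟨y, g⟩, h3 s' hs' c _ (hy.imp sub_lub sub_glb), rfl⟩)
    obtain ⟨y, hy, e⟩ := this
    rwa [← Subtype.ext e]

lemma kill {A B : Type} [BooleanAlgebra A] [BooleanAlgebra B] (f g : BoundedLatticeHom A B)
    {u u' : A} (h : u' ⊓ u = ⊥) {w : B} (hw : w ≤ f u' ⊔ g u) : w ⊓ (f u ⊓ g u') = ⊥ := by
  refine le_bot_iff.1 ((inf_le_inf_right _ hw).trans ?_)
  rw [inf_sup_right, ← inf_assoc, ← map_inf, h, map_bot, bot_inf_eq, bot_sup_eq,
    inf_left_comm, ← map_inf, inf_comm u, h, map_bot, inf_bot_eq]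

abbrev RO (X : Type) [TopologicalSpace X] : Type := Heyting.Regular (Opens X)

lemma RO_lub {X : Type} [TopologicalSpace X] (s : Set (RO X)) : ∃ x, IsLUB s x :=
  ⟨_, Heyting.Regular.gi.isLUB_of_u_image (isLUB_sSup _)⟩

lemma comap_compl {X Y : Type} [TopologicalSpace X] [TopologicalSpace Y] (f : C(Y, X))
    (ho : IsOpenMap f) (U : Opens X) : Opens.comap f Uᶜ = (Opens.comap f U)ᶜ := by
  apply Opens.ext
  rw [Opens.coe_compl_eq_interior_compl, Opens.coe_comap, Opens.coe_comap,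
    Opens.coe_compl_eq_interior_compl, ho.preimage_interior_eq_interior_preimage f.continuous,
    preimage_compl]

def pre {X Y : Type} [TopologicalSpace X] [TopologicalSpace Y] (f : C(Y, X)) (ho : IsOpenMap f) :
    BoundedLatticeHom (RO X) (RO Y) where
  toFun U := ⟨Opens.comap f U.val, by
    unfold Heyting.IsRegular
    rw [← comap_compl f ho, ← comap_compl f ho, U.prop.eq]⟩
  map_sup' a b := Heyting.Regular.coe_injective (by
    change Opens.comap f (a ⊔ b).val = _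
    rw [Heyting.Regular.coe_sup, Heyting.Regular.coe_sup, comap_compl f ho, comap_compl f ho,
      map_sup]
    rfl)
  map_inf' a b := Heyting.Regular.coe_injective (map_inf (Opens.comap f) a.val b.val)
  map_top' := Heyting.Regular.coe_injective (map_top (Opens.comap f))
  map_bot' := Heyting.Regular.coe_injective (map_bot (Opens.comap f))

lemma pre_glb {X Y : Type} [TopologicalSpace X] [TopologicalSpace Y] (f : C(Y, X))
    (ho : IsOpenMap f) (s : Set (RO X)) (x : RO X) (h : IsGLB s x) :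
    IsGLB (pre f ho '' s) (pre f ho x) := by
  refine ⟨by rintro _ ⟨y, hy, rfl⟩; exact OrderHomClass.mono (pre f ho) (h.1 hy), fun W hW => ?_⟩
  have k : ∀ U : RO X, Heyting.Regular.toRegular ⟨f '' W.val, ho _ W.val.isOpen⟩ ≤ U ↔
      W ≤ pre f ho U := fun U => by
    rw [Heyting.Regular.gi.gc]
    exact image_subset_iff
  exact (k x).1 (h.2 fun U hU => (k U).2 (hW ⟨U, hU, rfl⟩))

lemma ne_bot_iff {X : Type} [TopologicalSpace X] {U : RO X} : U ≠ ⊥ ↔ ∃ x, x ∈ U.val := by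
  rw [Ne, ← Heyting.Regular.coe_inj, Heyting.Regular.coe_bot, ← Opens.not_nonempty_iff_eq_bot,
    not_not]
  rfl

def clop {X : Type} [TopologicalSpace X] {s : Set X} (h : IsClopen s) : RO X :=
  ⟨⟨s, h.isOpen⟩, Opens.ext (by
    rw [Opens.coe_compl_eq_interior_compl, Opens.coe_compl_eq_interior_compl, Opens.coe_mk,
      h.compl.isOpen.interior_eq, compl_compl, h.isOpen.interior_eq])⟩

abbrev X : Type := ℕ → Bool

def flp (s : Finset ℕ) (x : X) : X := fun k => if k ∈ s then !x k else x k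

lemma flp_flp (s : Finset ℕ) (x : X) : flp s (flp s x) = x := by
  ext k; unfold flp; split_ifs <;> simp

lemma flp_cont (s : Finset ℕ) : Continuous (flp s) := by
  refine continuous_pi fun k => ?_
  unfold flp
  split_ifs
  · exact (continuous_of_discreteTopology (f := not)).comp (continuous_apply k)
  · exact continuous_apply k

lemma flp_open (s : Finset ℕ) : IsOpenMap (flp s) :=
  (Homeomorph.mk ⟨flp s, flp s, flp_flp s, flp_flp s⟩ (flp_cont s) (flp_cont s)).isOpenMap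

abbrev Y : Type := Σ _ : Finset ℕ, X

def pQ : Bool → C(Y, X)
  | true => ⟨fun y => y.2, continuous_sigma fun _ => continuous_id⟩
  | false => ⟨fun y => flp y.1 y.2, continuous_sigma fun s => flp_cont s⟩

lemma pQ_open : ∀ t, IsOpenMap (pQ t)
  | true => isOpenMap_sigma.2 fun _ => IsOpenMap.id
  | false => isOpenMap_sigma.2 fun s => flp_open s

def pM : Bool → C(X × X, X)
  | true => ⟨Prod.fst, continuous_fst⟩
  | false => ⟨Prod.snd, continuous_snd⟩

lemma pM_open : ∀ t, IsOpenMap (pM t)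
  | true => isOpenMap_fst
  | false => isOpenMap_snd

lemma cyl_clopen (k : ℕ) (b : Bool) : IsClopen {x : X | x k = b} :=
  (isClopen_discrete {b}).preimage (continuous_apply k)

lemma near {V : Set X} (hV : IsOpen V) {y : X} (hy : y ∈ V) :
    ∃ I : Finset ℕ, ∀ z : X, (∀ k ∈ I, z k = y k) → z ∈ V := by
  obtain ⟨I, u, h1, h2⟩ := isOpen_pi_iff.1 hV y hy
  exact ⟨I, fun z hz => h2 fun k hk => by rw [hz k hk]; exact (h1 k hk).2⟩

theorem main (m n : Cardinal.{0}) (hn : ℵ₀ ≤ n) (hnm : n ≤ m) :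
    ∃ (T : Type) (A : T → Type) (_ : ∀ t, BooleanAlgebra (A t)), (∀ t, Nontrivial (A t)) ∧
      ∃ (M Q : Type) (_ : BooleanAlgebra M) (_ : BooleanAlgebra Q)
        (iM : ∀ t, BoundedLatticeHom (A t) M) (iQ : ∀ t, BoundedLatticeHom (A t) Q),
        IsProd m n iM ∧ IsMin n iM ∧ IsProd m n iQ ∧
        ¬ ∃ h : BoundedLatticeHom Q M, IsMHom m h ∧ ∀ t a, h (iQ t a) = iM t a := by
  have hm := hn.trans hnm
  have nt : Nontrivial (RO X) := ⟨⊤, ⊥, ne_bot_iff.2 ⟨fun _ => true, trivial⟩⟩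
  refine ⟨Bool, fun _ => RO X, fun _ => inferInstance, fun _ => nt, _, _, inferInstance,
    inferInstance, res m hm (fun t => pre (pM t) (pM_open t)),
    res m hm (fun t => pre (pQ t) (pQ_open t)),
    res_prod hm RO_lub _ (fun t => pre_glb _ _) (fun a b ha hb => ?_), fun b hb => ?_,
    res_prod hm RO_lub _ (fun t => pre_glb _ _) (fun a b ha hb => ?_), ?_⟩
  · obtain ⟨x, hx⟩ := ne_bot_iff.1 ha
    obtain ⟨y, hy⟩ := ne_bot_iff.1 hb
    exact ne_bot_iff.2 ⟨(x, y), hx, hy⟩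
  · obtain ⟨⟨x, y⟩, hxy⟩ := ne_bot_iff.1 (fun h => hb (Subtype.ext h))
    obtain ⟨u, v, hu, hv, hx, hy, huv⟩ := isOpen_prod_iff.1 b.1.val.isOpen x y hxy
    obtain ⟨u', hu', hx', h1⟩ := isTopologicalBasis_isClopen.exists_subset_of_mem_open hx hu
    obtain ⟨v', hv', hy', h2⟩ := isTopologicalBasis_isClopen.exists_subset_of_mem_open hy hv
    refine ⟨Set.univ, (Set.toFinite _).lt_aleph0.le.trans hn,
      fun t => Bool.rec (clop hv') (clop hu') t, _, ?_,
      pair_glb _ Set.univ _ _ (fun _ _ => rfl) (fun t ht => absurd trivial ht), ?_⟩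
    · exact fun h => (ne_bot_iff (U := pre (pM true) (pM_open true) (clop hu') ⊓
        pre (pM false) (pM_open false) (clop hv'))).2 ⟨(x, y), hx', hy'⟩ (congrArg Subtype.val h)
    · exact fun z hz => huv ⟨h1 hz.1, h2 hz.2⟩
  · obtain ⟨x, hx⟩ := ne_bot_iff.1 ha
    obtain ⟨y, hy⟩ := ne_bot_iff.1 hb
    obtain ⟨I, hI⟩ := near b.val.isOpen hy
    refine ne_bot_iff.2 ⟨⟨I.filter (fun k => x k ≠ y k), x⟩, hx, hI _ fun k hk => ?_⟩
    change flp _ x k = y k
    unfold flp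
    split_ifs with h
    · have := (Finset.mem_filter.1 h).2
      revert this; cases x k <;> cases y k <;> simp
    · by_contra hc
      exact h (Finset.mem_filter.2 ⟨hk, hc⟩)
  · rintro ⟨h, hh, hc⟩
    obtain ⟨d, hd⟩ : ∃ d : Finset ℕ → ℕ × Bool → _, d = fun s p =>
      res m hm (fun t => pre (pQ t) (pQ_open t)) true (clop (cyl_clopen p.1 p.2)) ⊔
      res m hm (fun t => pre (pQ t) (pQ_open t)) false
        (clop (cyl_clopen p.1 (if p.1 ∈ s then p.2 else !p.2))) := ⟨_, rfl⟩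
    have cnt : ∀ s, #(range (d s)) ≤ m := fun s => (countable_range _).le_aleph0.trans hm
    choose e he using fun s => (sub_ex hm RO_lub (range (d s)) (cnt s)).2
    have e1 : ∀ s x, (⟨s, x⟩ : Y) ∈ (e s).1.val := fun s x => by
      have cl : IsClopen (range (@Sigma.mk (Finset ℕ) (fun _ => X) s)) := isClopen_range_sigmaMk
      suffices hs : clop cl ∈ lowerBounds (Subtype.val '' range (d s)) from (he s).2 hs ⟨x, rfl⟩
      rintro _ ⟨_, ⟨p, rfl⟩, rfl⟩ _ ⟨z, rfl⟩
      rw [hd]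
      rcases em (z p.1 = p.2) with h1 | h1
      · exact (le_sup_left (α := RO Y)) h1
      · refine (le_sup_right (α := RO Y)) ?_
        change flp s z p.1 = _
        unfold flp
        revert h1; split_ifs <;> cases z p.1 <;> cases p.2 <;> simp
    have e2 : IsLUB (range e) ⊤ := ⟨fun _ _ => le_top, fun b hb y _ => hb ⟨y.1, rfl⟩ (e1 y.1 y.2)⟩
    have e3 := (hh _ ((countable_range e).le_aleph0.trans hm) ⊤).1 e2
    have e4 : ∀ s, h (e s) = ⊥ := fun s => by
      by_contra hne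
      obtain ⟨⟨x, y⟩, hxy⟩ := ne_bot_iff.1 (fun h' => hne (Subtype.ext h'))
      obtain ⟨u, v, -, hv, hx, hy, huv⟩ := isOpen_prod_iff.1 (h (e s)).1.val.isOpen x y hxy
      obtain ⟨I, hI⟩ := near hv hy
      obtain ⟨k, hk⟩ := Infinite.exists_notMem_finset (I ∪ s)
      rw [Finset.mem_union, not_or] at hk
      have m1 : (x, Function.update y k (!x k)) ∈ (h (e s)).1.val :=
        huv ⟨hx, hI _ fun j hj => Function.update_of_ne (by rintro rfl; exact hk.1 hj) _ _⟩
      have m2 : h (e s) ≤ h (d s (k, !x k)) :=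
        OrderHomClass.mono h ((sub_glb (he s)).1 ⟨_, rfl⟩)
      rw [hd] at m2
      simp only [map_sup, hc, if_neg hk.2, Bool.not_not] at m2
      have z : clop (cyl_clopen k (!x k)) ⊓ clop (cyl_clopen k (x k)) = ⊥ := by
        by_contra hz
        obtain ⟨w, hw1, hw2⟩ := ne_bot_iff.1 hz
        have : (!x k) = x k := (show w k = !x k from hw1).symm.trans hw2
        simp at this
      have m3 := kill _ _ z m2
      exact (ne_bot_iff (U := (h (e s)).1 ⊓ (pre (pM true) (pM_open true)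
        (clop (cyl_clopen k (x k))) ⊓ pre (pM false) (pM_open false)
        (clop (cyl_clopen k (!x k)))))).2 ⟨(x, Function.update y k (!x k)), m1, rfl,
        show Function.update y k (!x k) k = !x k from Function.update_self _ _ _⟩
        (congrArg Subtype.val m3)
    have e5 : h ⊤ ≤ ⊥ := e3.2 (by rintro _ ⟨_, ⟨s, rfl⟩, rfl⟩; exact (e4 s).le)
    rw [map_top, top_le_iff] at e5
    exact (ne_bot_iff (U := ⊤)).2 ⟨((fun _ => true, fun _ => true) : X × X), trivial⟩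
      (congrArg Subtype.val e5.symm)

end Pool.Agent.H.MP_6fd33d_al
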